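import Mathlib
import Pool.Agent.Lib.helper28.PickBox

namespace Pool.Agent.Results.MP_9c1228_co.NoPick

open Set MeasureTheory Filter Topology
open scoped Pointwise

/-- The Euclidean plane. -/
abbrev Plane : Type := EuclideanSpace ℝ (Fin 2)

/-- Convex polygons: convex hulls of finite sets with nonempty interior. -/
def IsPolytope (K : Set Plane) : Prop :=
  (∃ V : Set Plane, V.Finite ∧ K = convexHull ℝ V) ∧ (interior K).Nonempty

/-- The translate `t + K`. -/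
def shift (t : Plane) (K : Set Plane) : Set Plane := t +ᵥ K

/-- Face-to-face tilings of the plane by translates of finitely many polytopes. -/
def IsTiling (𝒯 : Set (Set Plane)) : Prop :=
  (∃ protos : Set (Set Plane), protos.Finite ∧ (∀ K ∈ protos, IsPolytope K) ∧
    ∀ T ∈ 𝒯, ∃ K ∈ protos, ∃ t : Plane, T = shift t K) ∧
  ⋃₀ 𝒯 = univ ∧
  (∀ T ∈ 𝒯, ∀ T' ∈ 𝒯, T ≠ T' → Disjoint (interior T) (interior T')) ∧
  (∀ T ∈ 𝒯, ∀ T' ∈ 𝒯, IsExposed ℝ T (T ∩ T'))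

/-- Patches: finite unions of tiles. -/
def IsPatch (𝒯 : Set (Set Plane)) (P : Set Plane) : Prop :=
  ∃ S ⊆ 𝒯, S.Finite ∧ P = ⋃₀ S

/-- `Q` is the translate of `P` by `t`, and the tiles inside `Q` are exactly the translates by `t`
of the tiles inside `P`. -/
def TranslatedBy (𝒯 : Set (Set Plane)) (t : Plane) (P Q : Set Plane) : Prop :=
  Q = shift t P ∧ ∀ T, T ⊆ P → (T ∈ 𝒯 ↔ shift t T ∈ 𝒯)

/-- The linear map of the plane with matrix `A`. -/
noncomputable def act (A : Matrix (Fin 2) (Fin 2) ℝ) (x : Plane) : Plane :=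
  WithLp.toLp 2 (A.mulVec x.ofLp)

/-- Expansive matrices: diagonalizable over `ℂ` with all eigenvalues of modulus `> 1`. -/
def IsExpansive (A : Matrix (Fin 2) (Fin 2) ℝ) : Prop :=
  ∃ (Q : Matrix (Fin 2) (Fin 2) ℂ) (l : Fin 2 → ℂ), Q.det ≠ 0 ∧ (∀ i, 1 < ‖l i‖) ∧
    A.map Complex.ofReal * Q = Q * Matrix.diagonal l

/-- Self-affine tilings with expansive map of matrix `A`: repetitivity, inflation, deflation. -/
def IsSelfAffine (𝒯 : Set (Set Plane)) (A : Matrix (Fin 2) (Fin 2) ℝ) : Prop :=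
  IsTiling 𝒯 ∧ IsExpansive A ∧
  (∀ P, IsPatch 𝒯 P → ∃ R > 0, ∀ c, ∃ t Q,
    Q ⊆ Metric.ball c R ∧ IsPatch 𝒯 Q ∧ TranslatedBy 𝒯 t P Q) ∧
  (∀ T ∈ 𝒯, IsPatch 𝒯 (act A '' T)) ∧
  (∀ T₁ ∈ 𝒯, ∀ T₂ ∈ 𝒯, (∃ t, T₂ = shift t T₁) →
    ∃ t, TranslatedBy 𝒯 t (act A '' T₁) (act A '' T₂))

/-- The set of vertices of the tiles. -/
def vertices (𝒯 : Set (Set Plane)) : Set Plane :=
  ⋃ T ∈ 𝒯, extremePoints ℝ T

/-- The image of `P` under the `k`-th power of the map. -/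
def inflate (A : Matrix (Fin 2) (Fin 2) ℝ) (k : ℕ) (P : Set Plane) : Set Plane :=
  (act A)^[k] '' P

/-- The number of vertices in `X`. -/
noncomputable def count (𝒯 : Set (Set Plane)) (X : Set Plane) : ℝ := (vertices 𝒯 ∩ X).ncard

/-- The area of `X`. -/
noncomputable def area (X : Set Plane) : ℝ := (volume X).toReal

/-- The length of the boundary of `X`. -/
noncomputable def perimeter (X : Set Plane) : ℝ := (μH[1] (frontier X)).toReal

/-- The difference of the two sides of the Pick-type formula, without the error term. -/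
noncomputable def pickError (𝒯 : Set (Set Plane)) (Δ : ℝ) (X : Set Plane) : ℝ :=
  count 𝒯 X - (area X / Δ + 1 / 2 * count 𝒯 (frontier X))

open Pool.Agent.H28Pick

/-- The rectangle with lower left corner `(2a, 2b)`. -/
def tile (a b : ℤ) : Set E := box (2 * a) (2 * nxt a) (2 * b) (2 * nxt b)

/-- The product tiling. -/
def TT : Set (Set E) := {T | ∃ a b, G a ∧ G b ∧ T = tile a b}

/-- The expansion. -/
noncomputable def phi : E →ₗ[ℝ] E := (4 : ℝ) • LinearMap.id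

/-- Its matrix. -/
def four : Matrix (Fin 2) (Fin 2) ℝ := !![4, 0; 0, 4]

lemma act_four : act four = phi := by
  funext x
  refine ext2 ?_ ?_ <;> simp [act, four, phi, Matrix.mulVec, dotProduct, Fin.sum_univ_two]

lemma le_nxt (a : ℤ) : 2 * (a : ℝ) ≤ 2 * (nxt a : ℝ) := by
  have : (a : ℝ) < nxt a := by exact_mod_cast lt_nxt a
  linarith

lemma phi_box (p q r s : ℝ) : phi '' box p q r s = box (4 * p) (4 * q) (4 * r) (4 * s) := by
  ext x
  constructor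
  · rintro ⟨y, ⟨⟨a, b⟩, c, d⟩, rfl⟩
    simp only [box, phi, mem_ofPred_eq, LinearMap.smul_apply, LinearMap.id_apply, PiLp.smul_apply,
      smul_eq_mul]
    refine ⟨⟨?_, ?_⟩, ?_, ?_⟩ <;> linarith
  · rintro ⟨⟨a, b⟩, c, d⟩
    refine ⟨(1 / 4 : ℝ) • x, ?_, by simp [phi, smul_smul]⟩
    simp only [box, mem_ofPred_eq, PiLp.smul_apply, smul_eq_mul]
    refine ⟨⟨?_, ?_⟩, ?_, ?_⟩ <;> linarith

lemma phi_pow (k : ℕ) : inflate four k (box 0 2 0 2) = box 0 (2 * 4 ^ k) 0 (2 * 4 ^ k) := by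
  rw [inflate, act_four]
  induction k with
  | zero => simp
  | succ k ih =>
    rw [Function.iterate_succ', image_comp, ih, phi_box]
    congr 1 <;> ring

lemma vadd_tile (a b u v : ℤ) : (!₂[2 * (u : ℝ), 2 * (v : ℝ)] : E) +ᵥ tile a b =
    box (2 * (a + u : ℤ)) (2 * (nxt a + u : ℤ)) (2 * (b + v : ℤ)) (2 * (nxt b + v : ℤ)) := by
  rw [tile, vadd_box]
  congr 1 <;> simp <;> ring

lemma fwd {lo hi lo' hi' u v : ℤ} (h1 : ∀ a, lo ≤ a → a ≤ hi → (G (a + u) ↔ G a))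
    (h2 : ∀ a, lo' ≤ a → a ≤ hi' → (G (a + v) ↔ G a)) (T : Set E)
    (hT : T ⊆ box (2 * lo) (2 * hi) (2 * lo') (2 * hi')) (h : T ∈ TT) :
    (!₂[2 * (u : ℝ), 2 * (v : ℝ)] : E) +ᵥ T ∈ TT := by
  obtain ⟨a, b, ha, hb, rfl⟩ := h
  obtain ⟨⟨p1, p2⟩, p3, p4⟩ := box_subset (le_nxt a) (le_nxt b) hT
  have q1 : lo ≤ a := by exact_mod_cast (by linarith : (lo : ℝ) ≤ a)
  have q2 : nxt a ≤ hi := by exact_mod_cast (by linarith : (nxt a : ℝ) ≤ hi)
  have q3 : lo' ≤ b := by exact_mod_cast (by linarith : (lo' : ℝ) ≤ b)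
  have q4 : nxt b ≤ hi' := by exact_mod_cast (by linarith : (nxt b : ℝ) ≤ hi')
  have := lt_nxt a
  have := lt_nxt b
  refine ⟨a + u, b + v, (h1 a q1 (by omega)).2 ha, (h2 b q3 (by omega)).2 hb, ?_⟩
  rw [vadd_tile, tile, nxt_shift (h1 _ (by omega) (by omega)),
    nxt_shift (h2 _ (by omega) (by omega))]

lemma agree {lo hi lo' hi' u v : ℤ} (h1 : ∀ a, lo ≤ a → a ≤ hi → (G (a + u) ↔ G a))
    (h2 : ∀ a, lo' ≤ a → a ≤ hi' → (G (a + v) ↔ G a)) (T : Set E)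
    (hT : T ⊆ box (2 * lo) (2 * hi) (2 * lo') (2 * hi')) :
    T ∈ TT ↔ (!₂[2 * (u : ℝ), 2 * (v : ℝ)] : E) +ᵥ T ∈ TT := by
  refine ⟨fwd h1 h2 T hT, fun h => ?_⟩
  have := fwd (lo := lo + u) (hi := hi + u) (lo' := lo' + v) (hi' := hi' + v) (u := -u) (v := -v)
    (fun a a1 a2 => by
      have := h1 (a + -u) (by omega) (by omega)
      rw [neg_add_cancel_right] at this
      exact this.symm)
    (fun a a1 a2 => by
      have := h2 (a + -v) (by omega) (by omega)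
      rw [neg_add_cancel_right] at this
      exact this.symm) _ (by
      refine (vadd_set_mono hT).trans (le_of_eq ?_)
      rw [vadd_box]
      congr 1 <;> simp <;> ring) h
  rw [vadd_vadd] at this
  convert this
  rw [show (!₂[2 * ((-u : ℤ) : ℝ), 2 * ((-v : ℤ) : ℝ)] : E) + !₂[2 * (u : ℝ), 2 * (v : ℝ)] = 0 from
    ext2 (by simp) (by simp), zero_vadd]

lemma patch_box {lo hi lo' hi' : ℤ} (g1 : G lo) (g2 : G hi) (g3 : G lo') (g4 : G hi') (h : lo < hi)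
    (h' : lo' < hi') : IsPatch TT (box (2 * lo) (2 * hi) (2 * lo') (2 * hi')) := by
  refine ⟨(fun q : ℤ × ℤ => tile q.1 q.2) '' {q | q ∈ Ico lo hi ×ˢ Ico lo' hi' ∧ G q.1 ∧ G q.2},
    ?_, ?_, ?_⟩
  · rintro _ ⟨q, hq, rfl⟩
    exact ⟨_, _, hq.2.1, hq.2.2, rfl⟩
  · exact (((finite_Ico _ _).prod (finite_Ico _ _)).subset (fun q hq => hq.1)).image _
  · ext x
    constructor
    · rintro ⟨hx, hx'⟩
      obtain ⟨a, a1, a2, a3, a4⟩ := cover1 g1 g2 h _ hx.1 hx.2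
      obtain ⟨b, b1, b2, b3, b4⟩ := cover1 g3 g4 h' _ hx'.1 hx'.2
      exact ⟨tile a b, ⟨(a, b), ⟨⟨⟨a2, a3⟩, b2, b3⟩, a1, b1⟩, rfl⟩, a4, b4⟩
    · rintro ⟨_, ⟨⟨a, b⟩, ⟨⟨⟨a2, a3⟩, b2, b3⟩, -⟩, rfl⟩, ⟨x1, x2⟩, x3, x4⟩
      have p1 : (lo : ℝ) ≤ a := by exact_mod_cast a2
      have p2 : (nxt a : ℝ) ≤ hi := by exact_mod_cast nxt_le g2 a3
      have p3 : (lo' : ℝ) ≤ b := by exact_mod_cast b2
      have p4 : (nxt b : ℝ) ≤ hi' := by exact_mod_cast nxt_le g4 b3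
      simp only at x1 x2 x3 x4
      refine ⟨⟨?_, ?_⟩, ?_, ?_⟩ <;> linarith

lemma face1 {a a' : ℤ} (ha : G a) (ha' : G a') (z : ℝ) (h : 2 * (a : ℝ) ≤ z ∧ z ≤ 2 * (nxt a : ℝ))
    (h' : 2 * (a' : ℝ) ≤ z ∧ z ≤ 2 * (nxt a' : ℝ)) :
    ∃ α : ℝ, ∀ x, 2 * (a : ℝ) ≤ x ∧ x ≤ 2 * (nxt a : ℝ) →
      ((2 * (a' : ℝ) ≤ x ∧ x ≤ 2 * (nxt a' : ℝ)) ↔
        ∀ y, 2 * (a : ℝ) ≤ y ∧ y ≤ 2 * (nxt a : ℝ) → α * y ≤ α * x) := by
  have l1 := le_nxt a
  have l2 := le_nxt a'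
  rcases lt_trichotomy a a' with c | rfl | c
  · have : (nxt a : ℝ) ≤ a' := by exact_mod_cast nxt_le ha' c
    refine ⟨1, fun x hx => ⟨fun e y hy => by linarith [hy.2, e.1], fun e => ?_⟩⟩
    have := e _ ⟨l1, le_rfl⟩
    constructor <;> linarith [hx.2, h.2, h'.1]
  · exact ⟨0, fun x hx => ⟨fun _ _ _ => by simp, fun _ => hx⟩⟩
  · have : (nxt a' : ℝ) ≤ a := by exact_mod_cast nxt_le ha c
    refine ⟨-1, fun x hx => ⟨fun e y hy => by linarith [hy.1, e.2], fun e => ?_⟩⟩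
    have := e _ ⟨le_rfl, l1⟩
    constructor <;> linarith [hx.1, h.1, h'.2]

lemma same1 {a a' : ℤ} (ha : G a) (ha' : G a') (z : ℝ) (h : 2 * (a : ℝ) < z ∧ z < 2 * (nxt a : ℝ))
    (h' : 2 * (a' : ℝ) < z ∧ z < 2 * (nxt a' : ℝ)) : a = a' := by
  rcases lt_trichotomy a a' with c | c | c
  · have : (nxt a : ℝ) ≤ a' := by exact_mod_cast nxt_le ha' c
    linarith [h.2, h'.1]
  · exact c
  · have : (nxt a' : ℝ) ≤ a := by exact_mod_cast nxt_le ha c
    linarith [h.1, h'.2]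

lemma big (x : ℝ) : ∃ a, G a ∧ 2 * (a : ℝ) ≤ x ∧ x ≤ 2 * (nxt a : ℝ) := by
  obtain ⟨k, hk⟩ := exists_nat_ge |x|
  rw [abs_le] at hk
  have k0 : (0 : ℝ) ≤ k := by positivity
  obtain ⟨a, a1, -, -, a4⟩ := cover1 (lo := -(2 * k + 1)) (hi := 2 * k + 1)
    (G_of_odd (by omega)) (G_of_odd (by omega)) (by omega) x (by push_cast; linarith)
    (by push_cast; linarith)
  exact ⟨a, a1, a4⟩

lemma tiling : IsTiling TT := by
  refine ⟨⟨(fun q : ℝ × ℝ => box 0 q.1 0 q.2) '' ({2, 4} ×ˢ {2, 4}), (toFinite _).image _, ?_, ?_⟩,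
    ?_, ?_, ?_⟩
  · rintro _ ⟨⟨p, q⟩, ⟨hp, hq⟩, rfl⟩
    have p2 : 2 ≤ p := by rcases hp with h | h <;> simp only [mem_singleton_iff] at h <;> linarith
    have q2 : 2 ≤ q := by rcases hq with h | h <;> simp only [mem_singleton_iff] at h <;> linarith
    refine ⟨⟨_, toFinite _, hull_box (by linarith) (by linarith)⟩, !₂[1, 1], ?_⟩
    rw [interior_box]
    simp
    constructor <;> linarith
  · rintro _ ⟨a, b, -, -, rfl⟩
    refine ⟨_, ⟨(2 * (nxt a - a), 2 * (nxt b - b)), ⟨?_, ?_⟩, rfl⟩, !₂[2 * a, 2 * b], ?_⟩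
    · rcases nxt_cases a with h | h <;> rw [h.2] <;> simp <;> norm_num
    · rcases nxt_cases b with h | h <;> rw [h.2] <;> simp <;> norm_num
    · rw [shift, vadd_box, tile]
      congr 1 <;> simp <;> ring
  · rw [eq_univ_iff_forall]
    intro x
    obtain ⟨a, a1, a2⟩ := big (x 0)
    obtain ⟨b, b1, b2⟩ := big (x 1)
    exact ⟨tile a b, ⟨a, b, a1, b1, rfl⟩, a2, b2⟩
  · rintro _ ⟨a, b, ha, hb, rfl⟩ _ ⟨a', b', ha', hb', rfl⟩ hne
    rw [disjoint_left, tile, tile, interior_box, interior_box]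
    rintro x ⟨x1, x2⟩ ⟨x3, x4⟩
    exact hne (by rw [same1 ha ha' _ x1 x3, same1 hb hb' _ x2 x4])
  · rintro _ ⟨a, b, ha, hb, rfl⟩ _ ⟨a', b', ha', hb', rfl⟩ ⟨z, ⟨z1, z2⟩, z3, z4⟩
    obtain ⟨α, h1⟩ := face1 ha ha' _ z1 z3
    obtain ⟨β, h2⟩ := face1 hb hb' _ z2 z4
    exact exposed_box h1 h2 ⟨z, ⟨z1, z2⟩, z3, z4⟩

lemma mem_vertices (x : E) :
    x ∈ vertices TT ↔ ∃ a b : ℤ, G a ∧ G b ∧ x 0 = 2 * a ∧ x 1 = 2 * b := by
  simp only [vertices, mem_iUnion]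
  constructor
  · rintro ⟨_, ⟨a, b, ha, hb, rfl⟩, h⟩
    rw [tile, extreme_box (le_nxt a) (le_nxt b)] at h
    rcases h with ⟨h | h, h' | h'⟩
    · exact ⟨_, _, ha, hb, h, h'⟩
    · exact ⟨_, _, ha, G_nxt b, h, h'⟩
    · exact ⟨_, _, G_nxt a, hb, h, h'⟩
    · exact ⟨_, _, G_nxt a, G_nxt b, h, h'⟩
  · rintro ⟨a, b, ha, hb, h, h'⟩
    exact ⟨_, ⟨a, b, ha, hb, rfl⟩, by
      rw [tile, extreme_box (le_nxt a) (le_nxt b)]
      exact ⟨Or.inl h, Or.inl h'⟩⟩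

lemma bounded {P : Set E} (h : IsPatch TT P) : ∃ K : ℕ,
    P ⊆ box (2 * (-4 ^ K + 1 : ℤ)) (2 * (4 ^ K - 1 : ℤ)) (2 * (-4 ^ K + 1 : ℤ))
      (2 * (4 ^ K - 1 : ℤ)) := by
  obtain ⟨S, hS, hf, rfl⟩ := h
  have hb : Bornology.IsBounded (⋃₀ S) := by
    rw [Bornology.isBounded_sUnion hf]
    intro T hT
    obtain ⟨a, b, -, -, rfl⟩ := hS hT
    rw [tile, hull_box (le_nxt a) (le_nxt b), isBounded_convexHull]
    exact (toFinite _).isBounded
  obtain ⟨C, hC⟩ := hb.exists_norm_le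
  obtain ⟨K, hK⟩ := pow_unbounded_of_one_lt (C + 1) (show (1 : ℝ) < 4 by norm_num)
  refine ⟨K, fun x hx => ?_⟩
  have h0 := abs_le.1 ((PiLp.norm_apply_le x 0).trans (hC x hx))
  have h1 := abs_le.1 ((PiLp.norm_apply_le x 1).trans (hC x hx))
  have c0 := (norm_nonneg x).trans (hC x hx)
  simp only [box, mem_ofPred_eq]
  push_cast
  refine ⟨⟨?_, ?_⟩, ?_, ?_⟩ <;> linarith [h0.1, h0.2, h1.1, h1.2]

lemma near (M c : ℝ) (hM : 0 < M) : ∃ j : ℤ, |2 * (M * (2 * j + 1)) - c| ≤ 2 * M := by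
  refine ⟨⌊c / (4 * M)⌋, ?_⟩
  have h1 := Int.floor_le (c / (4 * M))
  have h2 := Int.lt_floor_add_one (c / (4 * M))
  rw [le_div_iff₀ (by positivity)] at h1
  rw [div_lt_iff₀ (by positivity)] at h2
  rw [abs_le]
  constructor <;> nlinarith

lemma defl1 {a a' : ℤ} (ha : G a) (ha' : G a') (h : nxt a' - a' = nxt a - a) (n : ℤ)
    (h1 : 4 * a ≤ n) (h2 : n ≤ 4 * nxt a) : G (n + 4 * (a' - a)) ↔ G n := by
  apply G_shift
  intro h0
  have g := G_nxt a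
  have g' := G_nxt a'
  by_cases e1 : n / 4 = a
  · rw [e1, add_sub_cancel]
    exact iff_of_true ha' ha
  by_cases e2 : n / 4 = nxt a
  · rw [show n / 4 + (a' - a) = nxt a' by omega, e2]
    exact iff_of_true g' g
  rcases nxt_cases a with c | c
  · omega
  rcases nxt_cases a' with c' | c'
  · omega
  rw [show n / 4 + (a' - a) = a' + 1 by omega, show n / 4 = a + 1 by omega]
  exact iff_of_false c'.1 c.1

lemma phi_tile (a b : ℤ) : phi '' tile a b =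
    box (2 * (4 * a : ℤ)) (2 * (4 * nxt a : ℤ)) (2 * (4 * b : ℤ)) (2 * (4 * nxt b : ℤ)) := by
  rw [tile, phi_box]
  congr 1 <;> push_cast <;> ring

lemma selfAffine : IsSelfAffine TT four := by
  rw [IsSelfAffine, act_four]
  simp only [TranslatedBy, shift]
  refine ⟨tiling, ⟨1, fun _ => 4, by simp, by simp, ?_⟩, ?_, ?_, ?_⟩
  · ext i j
    fin_cases i <;> fin_cases j <;> simp [four]
  · intro P hP
    obtain ⟨K, hK⟩ := bounded hP
    have M0 : (0 : ℝ) < 4 ^ K := by positivity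
    refine ⟨8 * 4 ^ K, by positivity, fun c => ?_⟩
    obtain ⟨i, hi⟩ := near _ (c 0) M0
    obtain ⟨j, hj⟩ := near _ (c 1) M0
    have hag := fun T (hT : T ⊆ P) => agree (u := 4 ^ K * (2 * i + 1)) (v := 4 ^ K * (2 * j + 1))
      (fun a a1 a2 => G_rep K i a (by omega) (by omega))
      (fun a a1 a2 => G_rep K j a (by omega) (by omega)) T (hT.trans hK)
    refine ⟨_, _, ?_, ?_, rfl, hag⟩
    · rintro _ ⟨x, hx, rfl⟩
      obtain ⟨⟨x1, x2⟩, x3, x4⟩ := hK hx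
      rw [Metric.mem_ball, EuclideanSpace.dist_eq, Real.sqrt_lt' (by positivity), Fin.sum_univ_two,
        Real.dist_eq, Real.dist_eq, sq_abs, sq_abs]
      rw [abs_le] at hi hj
      simp only [vadd_eq_add, PiLp.add_apply, Matrix.cons_val_zero, Matrix.cons_val_one]
      push_cast at x1 x2 x3 x4 ⊢
      have e1 : (2 * (4 ^ K * (2 * (i : ℝ) + 1)) + x 0 - c 0) ^ 2 ≤ (4 * 4 ^ K) ^ 2 :=
        sq_le_sq' (by linarith [hi.1]) (by linarith [hi.2])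
      have e2 : (2 * (4 ^ K * (2 * (j : ℝ) + 1)) + x 1 - c 1) ^ 2 ≤ (4 * 4 ^ K) ^ 2 :=
        sq_le_sq' (by linarith [hj.1]) (by linarith [hj.2])
      nlinarith
    · obtain ⟨S, hS, hf, rfl⟩ := hP
      refine ⟨(fun T => (!₂[2 * ((4 ^ K * (2 * i + 1) : ℤ) : ℝ),
        2 * ((4 ^ K * (2 * j + 1) : ℤ) : ℝ)] : E) +ᵥ T) '' S, ?_, hf.image _, ?_⟩
      · rintro _ ⟨T, hT, rfl⟩
        exact (hag T (subset_sUnion_of_mem hT)).1 (hS hT)
      · rw [sUnion_image, sUnion_eq_biUnion, vadd_set_iUnion₂]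
  · rintro _ ⟨a, b, ha, hb, rfl⟩
    rw [phi_tile]
    have := lt_nxt a
    have := lt_nxt b
    exact patch_box ((G_four _).2 ha) ((G_four _).2 (G_nxt a)) ((G_four _).2 hb)
      ((G_four _).2 (G_nxt b)) (by omega) (by omega)
  · rintro _ ⟨a, b, ha, hb, rfl⟩ _ ⟨a', b', ha', hb', rfl⟩ ⟨t, ht⟩
    rw [tile, tile, vadd_box] at ht
    obtain ⟨⟨p1, p2⟩, p3, p4⟩ := box_subset (le_nxt a') (le_nxt b') ht.le
    obtain ⟨⟨q1, q2⟩, q3, q4⟩ := box_subset (by linarith [le_nxt a]) (by linarith [le_nxt b]) ht.ge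
    have e1 : nxt a' - a' = nxt a - a := by
      exact_mod_cast (by linarith : (nxt a' : ℝ) - a' = nxt a - a)
    have e2 : nxt b' - b' = nxt b - b := by
      exact_mod_cast (by linarith : (nxt b' : ℝ) - b' = nxt b - b)
    rw [phi_tile, phi_tile]
    refine ⟨_, ?_, agree (defl1 ha ha' e1) (defl1 hb hb' e2)⟩
    rw [vadd_box, show nxt a' = nxt a - a + a' by omega, show nxt b' = nxt b - b + b' by omega]
    congr 1 <;> simp <;> ring

lemma count_grid (A : Finset ℕ) (s : Set E)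
    (h : ∀ x, x ∈ s ↔ ∃ a ∈ A, ∃ b ∈ A, x 0 = 2 * a ∧ x 1 = 2 * b) :
    s.Finite ∧ s.ncard = A.card * A.card := by
  have e : s = (fun q : ℕ × ℕ => (!₂[2 * (q.1 : ℝ), 2 * (q.2 : ℝ)] : E)) '' (A ×ˢ A : Finset _) := by
    ext x
    rw [h]
    constructor
    · rintro ⟨a, ha, b, hb, h1, h2⟩
      exact ⟨(a, b), by simp [ha, hb], ext2 (by simp [h1]) (by simp [h2])⟩
    · rintro ⟨⟨a, b⟩, hq, rfl⟩
      simp only [Finset.coe_product, mem_prod, Finset.mem_coe] at hq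
      exact ⟨a, hq.1, b, hq.2, by simp, by simp⟩
  rw [e]
  refine ⟨(Finset.finite_toSet _).image _, ?_⟩
  rw [ncard_image_of_injective, ncard_coe_finset, Finset.card_product]
  intro p q hpq
  have h0 := congrArg (fun w : E => w 0) hpq
  have h1 := congrArg (fun w : E => w 1) hpq
  simp at h0 h1
  exact Prod.ext h0 h1

lemma counts (L : ℕ) (hL : 0 < L) (hG : G L) :
    ((vertices TT ∩ box 0 (2 * L) 0 (2 * L)).ncard : ℝ) = (cnt L + 1) ^ 2 ∧
    ((vertices TT ∩ frontier (box 0 (2 * L) 0 (2 * L))).ncard : ℝ) = 4 * cnt L := by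
  classical
  set A := (Finset.range L).filter (fun a : ℕ => G a) with hA
  have hc : A.card = cnt L := by
    rw [hA, cnt]
  have h0 : 0 ∈ A := by simpa [hA, hL] using G_zero
  have k1 : ∀ z : ℝ, (∃ a ∈ insert L A, z = 2 * a) ↔
      (∃ a : ℤ, G a ∧ z = 2 * a) ∧ 0 ≤ z ∧ z ≤ 2 * L := by
    intro z
    constructor
    · rintro ⟨a, ha, rfl⟩
      have : G a ∧ a ≤ L := by
        rcases Finset.mem_insert.1 ha with rfl | ha
        · exact ⟨hG, le_rfl⟩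
        · simp only [hA, Finset.mem_filter, Finset.mem_range] at ha
          exact ⟨ha.2, ha.1.le⟩
      have h2 : (a : ℝ) ≤ L := by exact_mod_cast this.2
      exact ⟨⟨a, this.1, by simp⟩, by positivity, by linarith⟩
    · rintro ⟨⟨a, ha, rfl⟩, h1, h2⟩
      have a0 : 0 ≤ a := by exact_mod_cast (by linarith : (0 : ℝ) ≤ a)
      lift a to ℕ using a0
      have a1 : a ≤ L := by exact_mod_cast (by push_cast at h2; linarith : (a : ℝ) ≤ L)
      refine ⟨a, ?_, by simp⟩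
      rcases a1.eq_or_lt with rfl | a1
      · simp
      · simp [hA, a1, ha]
  have k2 : ∀ z : ℝ, (∃ a ∈ A.erase 0, z = 2 * a) ↔
      (∃ a : ℤ, G a ∧ z = 2 * a) ∧ 0 < z ∧ z < 2 * L := by
    intro z
    constructor
    · rintro ⟨a, ha, rfl⟩
      simp only [hA, Finset.mem_erase, Finset.mem_filter, Finset.mem_range] at ha
      have h2 : (a : ℝ) < L := by exact_mod_cast ha.2.1
      have h3 : (0 : ℝ) < a := by exact_mod_cast Nat.pos_of_ne_zero ha.1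
      exact ⟨⟨a, ha.2.2, by simp⟩, by linarith, by linarith⟩
    · rintro ⟨⟨a, ha, rfl⟩, h1, h2⟩
      have a0 : 0 < a := by exact_mod_cast (by linarith : (0 : ℝ) < a)
      lift a to ℕ using a0.le
      have a1 : a < L := by exact_mod_cast (by push_cast at h2; linarith : (a : ℝ) < L)
      refine ⟨a, ?_, by simp⟩
      simp only [hA, Finset.mem_erase, Finset.mem_filter, Finset.mem_range]
      exact ⟨by omega, a1, ha⟩
  obtain ⟨f1, c1⟩ := count_grid (insert L A) (vertices TT ∩ box 0 (2 * L) 0 (2 * L)) (by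
    intro x
    have e0 := k1 (x 0)
    have e1 := k1 (x 1)
    rw [mem_inter_iff, mem_vertices]
    constructor
    · rintro ⟨⟨a, b, ha, hb, h, h'⟩, y, y'⟩
      obtain ⟨p, hp, ep⟩ := e0.2 ⟨⟨a, ha, h⟩, y⟩
      obtain ⟨q, hq, eq⟩ := e1.2 ⟨⟨b, hb, h'⟩, y'⟩
      exact ⟨p, hp, q, hq, ep, eq⟩
    · rintro ⟨p, hp, q, hq, ep, eq⟩
      obtain ⟨⟨a, ha, h⟩, y⟩ := e0.1 ⟨p, hp, ep⟩
      obtain ⟨⟨b, hb, h'⟩, y'⟩ := e1.1 ⟨q, hq, eq⟩
      exact ⟨⟨a, b, ha, hb, h, h'⟩, y, y'⟩)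
  obtain ⟨f2, c2⟩ := count_grid (A.erase 0) (vertices TT ∩ interior (box 0 (2 * L) 0 (2 * L))) (by
    intro x
    have e0 := k2 (x 0)
    have e1 := k2 (x 1)
    rw [mem_inter_iff, mem_vertices, interior_box]
    constructor
    · rintro ⟨⟨a, b, ha, hb, h, h'⟩, y, y'⟩
      obtain ⟨p, hp, ep⟩ := e0.2 ⟨⟨a, ha, h⟩, y⟩
      obtain ⟨q, hq, eq⟩ := e1.2 ⟨⟨b, hb, h'⟩, y'⟩
      exact ⟨p, hp, q, hq, ep, eq⟩
    · rintro ⟨p, hp, q, hq, ep, eq⟩
      obtain ⟨⟨a, ha, h⟩, y⟩ := e0.1 ⟨p, hp, ep⟩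
      obtain ⟨⟨b, hb, h'⟩, y'⟩ := e1.1 ⟨q, hq, eq⟩
      exact ⟨⟨a, b, ha, hb, h, h'⟩, y, y'⟩)
  rw [Finset.card_insert_of_notMem (by simp [hA]), hc] at c1
  rw [Finset.card_erase_of_mem h0, hc] at c2
  have c0 : 1 ≤ cnt L := by
    rw [← hc]
    exact Finset.card_pos.2 ⟨0, h0⟩
  have e : vertices TT ∩ frontier (box 0 (2 * L) 0 (2 * L)) =
      (vertices TT ∩ box 0 (2 * L) 0 (2 * L)) \
        (vertices TT ∩ interior (box 0 (2 * L) 0 (2 * L))) := by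
    rw [(closed_box _ _ _ _).frontier_eq]
    ext x
    simp only [mem_inter_iff, Set.mem_sdiff]
    tauto
  have c3 := ncard_sdiff_add_ncard_of_subset
    (inter_subset_inter_right (vertices TT) (interior_subset (s := box 0 (2 * L) 0 (2 * L)))) f1
  rw [← e, c1, c2] at c3
  refine ⟨by rw [c1]; push_cast; ring, ?_⟩
  obtain ⟨c, hc'⟩ : ∃ c, cnt L = c + 1 := ⟨cnt L - 1, by omega⟩
  rw [hc'] at c3 ⊢
  rw [Nat.add_sub_cancel] at c3
  have c4 : (vertices TT ∩ frontier (box 0 (2 * L) 0 (2 * L))).ncard = 4 * (c + 1) := by nlinarith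
  rw [c4]
  push_cast
  ring

/-- A planar self-affine tiling and a patch for which the Pick-type formula fails. -/
theorem result :
    ∃ (𝒯 : Set (Set Plane)) (A : Matrix (Fin 2) (Fin 2) ℝ) (P : Set Plane) (Δ : ℝ),
      IsSelfAffine 𝒯 A ∧ (∀ x ∈ vertices 𝒯, ∀ y ∈ vertices 𝒯, x ≠ y → 2 ≤ dist x y) ∧
      IsPatch 𝒯 P ∧ P.Nonempty ∧ 0 < Δ ∧
      Tendsto (fun k : ℕ => area (inflate A k P) / count 𝒯 (inflate A k P)) atTop (𝓝 Δ) ∧
      ¬ Asymptotics.IsLittleO atTop (fun k : ℕ => pickError 𝒯 Δ (inflate A k P))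
        (fun k : ℕ => perimeter (inflate A k P)) := by
  have hc : ∀ k : ℕ, (cnt (4 ^ k) : ℝ) = (2 * 4 ^ k + 1) / 3 := by
    intro k
    have : ((3 * cnt (4 ^ k) : ℕ) : ℝ) = (2 * 4 ^ k + 1 : ℕ) := by rw [cnt_pow]
    push_cast at this
    linarith
  have hn := fun k : ℕ => counts (4 ^ k) (by positivity) (G_pow k)
  simp only [hc, Nat.cast_pow, Nat.cast_ofNat] at hn
  have hv := fun k : ℕ => volume_box (2 * 4 ^ k) (by positivity)
  refine ⟨TT, four, box 0 2 0 2, 9, selfAffine, ?_, ?_, ⟨0, by simp [box]⟩, by norm_num, ?_, ?_⟩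
  · intro x hx y hy hxy
    obtain ⟨a, b, -, -, h1, h2⟩ := (mem_vertices x).1 hx
    obtain ⟨c, d, -, -, h3, h4⟩ := (mem_vertices y).1 hy
    have key : ∀ (u v : ℤ) (i : Fin 2), u ≠ v → x i = 2 * u → y i = 2 * v → 2 ≤ dist x y := by
      intro u v i huv e1 e2
      refine le_trans ?_ (PiLp.dist_apply_le x y i)
      have : (1 : ℝ) ≤ |(u : ℝ) - v| := by exact_mod_cast Int.one_le_abs (sub_ne_zero.2 huv)
      rw [Real.dist_eq, e1, e2, ← mul_sub, abs_mul, abs_two]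
      linarith
    by_cases e : a = c
    · refine key b d 1 ?_ h2 h4
      rintro rfl
      exact hxy (ext2 (by rw [h1, h3, e]) (by rw [h2, h4]))
    · exact key a c 0 e h1 h3
  · have := patch_box G_zero (G_of_odd (n := 1) rfl) G_zero (G_of_odd (n := 1) rfl) one_pos one_pos
    simpa using this
  · simp only [area, count, phi_pow, hv, fun k => (hn k).1]
    have h1 : Tendsto (fun k : ℕ => ((4 : ℝ)⁻¹) ^ k) atTop (𝓝 0) :=
      tendsto_pow_atTop_nhds_zero_of_lt_one (by norm_num) (by norm_num)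
    have h2 : Tendsto (fun k : ℕ => 9 / (1 + 2 * ((4 : ℝ)⁻¹) ^ k) ^ 2) atTop
        (𝓝 (9 / (1 + 2 * 0) ^ 2)) :=
      tendsto_const_nhds.div (((h1.const_mul 2).const_add 1).pow 2) (by norm_num)
    convert h2 using 2 with k
    · rw [inv_pow]
      field_simp
      ring
    · norm_num
  · simp only [pickError, perimeter, area, count, phi_pow, hv, fun k => (hn k).1, fun k => (hn k).2]
    intro h
    obtain ⟨k, hk⟩ := (h.def (show (0 : ℝ) < 1 / 20 by norm_num)).exists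
    have M0 : (0 : ℝ) < 4 ^ k := by positivity
    have hl := length_box (2 * 4 ^ k) (by positivity)
    rw [Real.norm_of_nonneg ENNReal.toReal_nonneg, Real.norm_eq_abs] at hk
    have := (le_abs_self _).trans hk
    nlinarith

end Pool.Agent.Results.MP_9c1228_co.NoPick
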